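import Mathlib
import Pool.Agent.N290.RN.Stm
import Pool.Agent.N385.RM.LALG

/-!
# Project RN (helper290): localised approximation by holomorphic functions near a boundary point,
local tails (LALQ), by helper402; the proof is that of `Pool.Agent.N385.RM.LALG` (helper385), which
follows `Pool.Agent.N602.RK.LAL`
-/

set_option autoImplicit false

open Complex MeasureTheory Set Filter Topology
open scoped ENNReal

namespace Pool.Agent.N402.RN

open Pool.Agent.N290.RJ Pool.Agent.N290.RK Pool.Agent.N290.RL Pool.Agent.N290.RM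
open Pool.Agent.N602.RK Pool.Agent.N655.RJ Pool.Agent.N385.RM

/-- RN/LALQ -/
theorem LALQ_of (d : ℕ) (hC : Cmain d) (h9 : C9 d) : Pool.Agent.N290.RN.LALQ d := by
  intro C R τ hC0 hR hτ η hη
  obtain ⟨C₀, hC₀, hC⟩ := hC
  obtain ⟨c9, hc9, h9⟩ := h9
  obtain ⟨θ, L, hθ, hθ1, hθ2, hθ01, hL, hθL, hθd⟩ := exists_cut
  obtain ⟨κ, hκ, hκτ⟩ : ∃ κ : ℝ, 0 < κ ∧ τ κ ≤ η / (4 * (C₀ * C)) := by
    have e1 : ∀ᶠ t in 𝓝[>] (0 : ℝ), τ t < η / (4 * (C₀ * C)) :=
      hτ.eventually (gt_mem_nhds (by positivity))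
    have e2 : ∀ᶠ t in 𝓝[>] (0 : ℝ), 0 < t := eventually_mem_nhdsWithin
    obtain ⟨t, h1, h2⟩ := (e1.and e2).exists
    exact ⟨t, h2, h1.le⟩
  obtain ⟨A1, hA1⟩ : ∃ A1 : ℝ, A1 = (ENNReal.ofReal c9 * (1 + ∫⁻ t in Ioo (0 : ℝ) 1,
    ENNReal.ofReal (Real.sqrt (min t 1) / t))).toReal := ⟨_, rfl⟩
  obtain ⟨A2, hA2⟩ : ∃ A2 : ℝ, A2 = max (τ 1) 0 := ⟨_, rfl⟩
  have hA10 : 0 ≤ A1 := by rw [hA1]; exact ENNReal.toReal_nonneg
  have hA20 : 0 ≤ A2 := by rw [hA2]; exact le_max_right _ _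
  have hB1 : ∀ z ∈ B d, ∫⁻ w in B d, ENNReal.ofReal (Real.sqrt (min (1 - N w) 1) * ker z w) ≤
      ENNReal.ofReal A1 := by
    intro z hz
    rw [hA1, ENNReal.ofReal_toReal]
    · refine h9 (fun t => Real.sqrt (min t 1)) (fun t t' h => Real.sqrt_le_sqrt (min_le_min_right 1 h))
        (fun t => Real.sqrt_nonneg _) (fun t => ?_) z hz
      refine Real.sqrt_le_iff.2 ⟨by norm_num, ?_⟩
      rw [one_pow]
      exact min_le_right _ _
    · exact ENNReal.mul_ne_top ENNReal.ofReal_ne_top (ENNReal.add_ne_top.2 ⟨ENNReal.one_ne_top, sqrt_int⟩)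
  obtain ⟨ε, hε⟩ : ∃ ε : ℝ, ε = R ^ 2 / 16 := ⟨_, rfl⟩
  have hε0 : 0 < ε := by rw [hε]; positivity
  have hR2 : 0 < R ^ 2 := by positivity
  have hε1 : 2 * ε < R ^ 2 := by rw [hε]; linarith
  obtain ⟨D, hD⟩ : ∃ D : ℝ, D = C * (4 * L / ε) := ⟨_, rfl⟩
  have hD0 : 0 ≤ D := by rw [hD]; positivity
  have hlt : ∀ x : ℝ, 0 < x → Real.sqrt (1 - x) < 1 := by
    intro x hx
    rw [Real.sqrt_lt' one_pos]
    linarith
  obtain ⟨m, hmm⟩ : ∃ m : ℕ, C₀ * D * A1 * Real.sqrt (1 - ε / 4) ^ m +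
      C₀ * C * A2 * Real.sqrt (1 - κ ^ 2 / 4 / 4) ^ m < η / 4 := by
    have t1 := (tendsto_pow_atTop_nhds_zero_of_lt_one (Real.sqrt_nonneg (1 - ε / 4))
      (hlt (ε / 4) (by positivity))).const_mul (C₀ * D * A1)
    have t2 := (tendsto_pow_atTop_nhds_zero_of_lt_one (Real.sqrt_nonneg (1 - κ ^ 2 / 4 / 4))
      (hlt (κ ^ 2 / 4 / 4) (by positivity))).const_mul (C₀ * C * A2)
    have t3 := t1.add t2
    rw [mul_zero, mul_zero, add_zero] at t3
    exact (t3.eventually (gt_mem_nhds (by positivity : (0 : ℝ) < η / 4))).exists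
  refine ⟨min (R / 4) (η / (C * (m + 1))), by positivity, ?_⟩
  intro p hp a ha htail h hh hhC hdb0
  obtain ⟨W, hWdef⟩ : ∃ W : E d → ℝ, W = (B d).indicator fun z => a z ^ 2 := ⟨_, rfl⟩
  have hWB : ∀ z ∈ B d, W z = a z ^ 2 := by
    intro z hz
    rw [hWdef, indicator_of_mem hz]
  have hW0 : ∀ z, 0 ≤ W z := by
    intro z
    rw [hWdef]
    exact indicator_nonneg (fun z _ => sq_nonneg _) z
  have hWm : Measurable W := by
    classical
    rw [hWdef, ← Set.piecewise_eq_indicator]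
    exact ContinuousOn.measurable_piecewise (ha.a1.continuousOn.pow 2) continuousOn_const
      B_open.measurableSet
  have hdb : ∀ z ∈ B d, nm (z - p) < R → ∀ ξ, ‖db h z ξ‖ ≤ C * W z * len z ξ := by
    intro z hz h1 ξ
    rw [hWB z hz]
    exact hdb0 z hz h1 ξ
  have hTL : ∀ z ∈ B d, nm (z - p) < R → ∫⁻ w in B d, ENNReal.ofReal ((if 1 - N w ≤ κ then W w else 0) * ker z w) ≤
      ENNReal.ofReal (η / (4 * (C₀ * C))) := by
    intro z hz hzR
    refine le_trans (le_of_eq ?_) ((htail κ hκ z hz hzR).trans (ENNReal.ofReal_le_ofReal hκτ))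
    refine setLIntegral_congr_fun B_open.measurableSet fun w hw => ?_
    simp only [hWB w hw]
  have hB2 : ∀ z ∈ B d, nm (z - p) < R → ∫⁻ w in B d, ENNReal.ofReal (W w * ker z w) ≤ ENNReal.ofReal A2 := by
    intro z hz hzR
    refine le_trans (le_of_eq ?_) ((htail 1 one_pos z hz hzR).trans (ENNReal.ofReal_le_ofReal ?_))
    · refine setLIntegral_congr_fun B_open.measurableSet fun w hw => ?_
      have h1 : 1 - N w ≤ 1 := by
        have := N_nonneg w
        linarith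
      simp only [hWB w hw, if_pos h1]
    · rw [hA2]
      exact le_max_left _ _
  obtain ⟨H, hH, hHb⟩ := hC (ga θ ε p h m) C
    (mjg W D (Real.sqrt (1 - ε / 4)) κ C (Real.sqrt (1 - κ ^ 2 / 4 / 4)) m)
    (ga_contDiffOn hθ hθ2 hR hε0 hε1 p hh m) (fun z hz => ga_norm hθ2 hθ01 hR hC0 hε0 hε1 hp hhC m hz)
    (mjg_meas hWm _ _ _ _ _ m)
    (fun z hz => by
      unfold mjg
      have hWz := hW0 z
      have h3 : 0 ≤ (if 1 - N z ≤ κ then W z else 0) := by
        split_ifs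
        · exact hWz
        · exact le_rfl
      positivity)
    (fun z hz ξ => by
      rw [hD]
      exact db_gag hθ hθ2 hθ01 hL hθL hθd hW0 hR hC0 hκ hε0 hε1 hp hh hhC hdb m hz ξ)
  refine ⟨H, hH, ?_⟩
  intro z hz hzp
  have hzR : nm (z - p) < R := by
    have := lt_of_lt_of_le hzp (min_le_left _ _)
    linarith
  have h4 : ‖ga θ ε p h m z - H z‖ ≤ η / 2 := by
    have h5 := (hHb z hz).trans (mul_le_mul_right
      (int_mjg (C := C) hW0 hWm hD0 (Real.sqrt_nonneg (1 - ε / 4)) hC0.le (Real.sqrt_nonneg (1 - κ ^ 2 / 4 / 4)) hA10 hA20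
        (by positivity) m (hB1 z hz) (hB2 z hz hzR) (hTL z hz hzR)) _)
    rw [← ENNReal.ofReal_mul hC₀.le] at h5
    have e : C₀ * (D * Real.sqrt (1 - ε / 4) ^ m * A1 + C * (η / (4 * (C₀ * C)) +
        Real.sqrt (1 - κ ^ 2 / 4 / 4) ^ m * A2)) = (C₀ * D * A1 * Real.sqrt (1 - ε / 4) ^ m +
      C₀ * C * A2 * Real.sqrt (1 - κ ^ 2 / 4 / 4) ^ m) + η / 4 := by
      field_simp
      ring
    rw [e] at h5
    have h6 := h5.trans (ENNReal.ofReal_le_ofReal (by linarith : (C₀ * D * A1 * Real.sqrt (1 - ε / 4) ^ m +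
      C₀ * C * A2 * Real.sqrt (1 - κ ^ 2 / 4 / 4) ^ m) + η / 4 ≤ η / 2))
    exact (ENNReal.ofReal_le_ofReal_iff (by positivity)).1 h6
  have h5 : nm (z - p) < R / 4 := lt_of_lt_of_le hzp (min_le_left _ _)
  have h6 : nm (z - p) ≤ η / (C * (m + 1)) := (lt_of_lt_of_le hzp (min_le_right _ _)).le
  have h7 : N (z - p) / ε ≤ 1 := by
    rw [div_le_one hε0, ← nm_sq, hε]
    have h8 := nm_nonneg (z - p)
    nlinarith
  have h8 : ga θ ε p h m z = h z * qq p z ^ m := by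
    unfold ga cu
    rw [hθ1 _ h7, Complex.ofReal_one, one_mul]
  have h9 : ‖h z * (qq p z ^ m - 1)‖ ≤ η / 2 := by
    rw [norm_mul]
    have k1 := hhC z hz (by linarith)
    have k2 := pow_sub_one_le (qq_le_one hp hz) m
    have k3 := qq_sub_one (z := z) hp
    have k4 : (m : ℝ) * ‖qq p z - 1‖ ≤ m * (η / (C * (m + 1)) / 2) := by
      gcongr
      linarith
    calc ‖h z‖ * ‖qq p z ^ m - 1‖ ≤ C * (m * (η / (C * (m + 1)) / 2)) := by
          gcongr
          exact k2.trans k4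
      _ = η / 2 * (m / (m + 1)) := by
          field_simp
      _ ≤ η / 2 * 1 := by
          gcongr
          rw [div_le_one (by positivity)]
          linarith
      _ = η / 2 := by ring
  have e3 : H z - h z = -(ga θ ε p h m z - H z) + h z * (qq p z ^ m - 1) := by
    rw [h8]
    ring
  rw [e3]
  refine (norm_add_le _ _).trans ?_
  rw [norm_neg]
  linarith

end Pool.Agent.N402.RN
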